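import Pool.Agent.H45.SHA.Stmts

/-! # SHA, module KN: choice of the known primes of a triple -/

set_option autoImplicit false

namespace Pool.SHA

open Finset Pool.Agent.H98.ABCR

/-- the coordinate containing the prime `q` -/
private def kn_i (v : ℕ × ℕ) (q : ℕ) : Fin 3 :=
  if q ∣ v.1 then 0 else if q ∣ v.2 then 1 else 2

private theorem kn_dvd {v : ℕ × ℕ} (hv : IsTri v) {q : ℕ} (hq : q.Prime) {t : Fin 3}
    (hd : q ∣ coord v t) : kn_i v q = t := by
  have h1 : ¬ (q ∣ v.1 ∧ q ∣ v.2) := by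
    rintro ⟨h1, h2⟩
    exact hq.one_lt.ne' (Nat.eq_one_of_dvd_coprimes hv.2.2 h1 h2)
  unfold kn_i
  fin_cases t
  · have : q ∣ v.1 := hd
    simp [this]
  · have h2 : q ∣ v.2 := hd
    have h3 : ¬ q ∣ v.1 := fun h => h1 ⟨h, h2⟩
    simp [h2, h3]
  · have h2 : q ∣ v.1 + v.2 := hd
    have h3 : ¬ q ∣ v.1 := fun h => h1 ⟨h, (Nat.dvd_add_right h).1 h2⟩
    have h4 : ¬ q ∣ v.2 := fun h => h1 ⟨(Nat.dvd_add_left h).1 h2, h⟩
    simp [h3, h4]

private theorem kn_fac {v : ℕ × ℕ} (hv : IsTri v) {q : ℕ} (hq : q.Prime) {t : Fin 3}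
    (hd : kn_i v q ≠ t) : (coord v t).factorization q = 0 := by
  apply Nat.factorization_eq_zero_of_not_dvd
  intro h
  exact hd (kn_dvd hv hq h)

private theorem kn_pos {v : ℕ × ℕ} (hv : IsTri v) (t : Fin 3) : 0 < coord v t := by
  have h1 := hv.1
  have h2 := hv.2.1
  fin_cases t
  · exact h1
  · exact h2
  · show 0 < v.1 + v.2
    omega

private theorem kn_nn {v : ℕ × ℕ} (hv : IsTri v) : 0 < nn v := by
  have h1 := hv.1
  have h2 := hv.2.1
  unfold nn
  positivity

/-- the mass of an item -/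
private noncomputable def kn_m (v : ℕ × ℕ) (q : ℕ) : ℝ :=
  (∑ s : Fin 3, ((coord v s).factorization q : ℝ)) * Real.log q

private theorem kn_fil {v : ℕ × ℕ} (hv : IsTri v) (K : Finset ℕ) (hK : ∀ q ∈ K, q.Prime)
    (t : Fin 3) : ∑ q ∈ K.filter (fun q => kn_i v q = t), kn_m v q = kl K (coord v t) := by
  unfold kl
  rw [Finset.sum_filter]
  refine Finset.sum_congr rfl fun q hq => ?_
  by_cases h : kn_i v q = t
  · rw [if_pos h]
    unfold kn_m
    rw [Finset.sum_eq_single t]
    · intro s _ hs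
      rw [kn_fac hv (hK q hq) (by rw [h]; exact fun h' => hs h'.symm)]
      simp
    · intro h'
      exact absurd (Finset.mem_univ t) h'
  · rw [if_neg h, kn_fac hv (hK q hq) h]
    simp

private theorem kn_sum (v : ℕ × ℕ) (K : Finset ℕ) :
    ∑ q ∈ K, kn_m v q = ∑ s : Fin 3, kl K (coord v s) := by
  unfold kl kn_m
  rw [Finset.sum_comm]
  refine Finset.sum_congr rfl fun q _ => ?_
  rw [Finset.sum_mul]

private theorem kn_log {v : ℕ × ℕ} (hv : IsTri v) (t : Fin 3) :
    kl (nn v).primeFactors (coord v t) = Real.log (coord v t) := by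
  have hd : coord v t ∣ nn v := by
    unfold nn
    fin_cases t
    · exact ⟨v.2 * (v.1 + v.2), by show _ = v.1 * _; ring⟩
    · exact ⟨v.1 * (v.1 + v.2), by show _ = v.2 * _; ring⟩
    · exact ⟨v.1 * v.2, by show _ = (v.1 + v.2) * _; ring⟩
  have hsub : (coord v t).primeFactors ⊆ (nn v).primeFactors :=
    Nat.primeFactors_mono hd (kn_nn hv).ne'
  rw [Real.log_nat_eq_sum_factorization]
  unfold kl Finsupp.sum
  rw [Nat.support_factorization]
  symm
  refine Finset.sum_subset hsub fun q _ hq => ?_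
  have : (coord v t).factorization q = 0 := by
    rw [← Nat.support_factorization] at hq
    exact Finsupp.notMem_support_iff.1 hq
  rw [this]
  simp

theorem kn_thm (hKNR : S_KNR) : S_KN := by
  intro ε hε hε1
  obtain ⟨δ, η, hδ0, hδ1, hη0, hη1, H⟩ := hKNR ε hε hε1
  refine ⟨δ, η, hδ0, hδ1, hη0, hη1, ?_⟩
  intro X v hX hv hR hh1
  set s := (nn v).primeFactors with hs
  have hprime : ∀ q ∈ s, q.Prime := fun q hq => Nat.prime_of_mem_primeFactors hq
  have hlogq : ∀ q ∈ s, 0 < Real.log q := fun q hq =>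
    Real.log_pos (by exact_mod_cast (hprime q hq).one_lt)
  have hX0 : 0 < X := by linarith
  have hLX : 0 < Real.log X := Real.log_pos (by linarith)
  have hh0 : 0 < hh v := lt_of_lt_of_le (by positivity) hh1
  have hδh : 1 ≤ δ * hh v := by
    rw [div_le_iff₀ hδ0] at hh1; linarith
  have ha := hv.1
  have hb := hv.2.1
  -- logarithms of the coordinates
  have hmin1 : (1 : ℝ) ≤ ((min v.1 v.2 : ℕ) : ℝ) := by
    have : 1 ≤ min v.1 v.2 := le_min ha hb
    exact_mod_cast this
  have hmaxc : ((v.1 + v.2 : ℕ) : ℝ) ≤ 2 * ((max v.1 v.2 : ℕ) : ℝ) := by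
    have : v.1 + v.2 ≤ 2 * max v.1 v.2 := by omega
    exact_mod_cast this
  have hmaxc' : ((max v.1 v.2 : ℕ) : ℝ) ≤ ((v.1 + v.2 : ℕ) : ℝ) := by
    have : max v.1 v.2 ≤ v.1 + v.2 := by omega
    exact_mod_cast this
  have hmax1 : (1 : ℝ) ≤ ((max v.1 v.2 : ℕ) : ℝ) := by
    have : 1 ≤ max v.1 v.2 := le_max_of_le_left ha
    exact_mod_cast this
  have hc1 : (1 : ℝ) ≤ ((v.1 + v.2 : ℕ) : ℝ) := hmax1.trans hmaxc'
  have hlmax : hh v - 1 ≤ Real.log ((max v.1 v.2 : ℕ) : ℝ) := by
    unfold hh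
    have h1 := Real.log_le_log (by linarith) hmaxc
    rw [Real.log_mul (by norm_num) (by linarith)] at h1
    have := Real.log_two_lt_d9
    linarith
  have hlmax' : Real.log ((max v.1 v.2 : ℕ) : ℝ) ≤ hh v := by
    unfold hh
    exact Real.log_le_log (by linarith) hmaxc'
  have hlmin : Real.log ((min v.1 v.2 : ℕ) : ℝ) ≤ hh v := by
    unfold hh
    refine Real.log_le_log (by linarith) ?_
    have : min v.1 v.2 ≤ v.1 + v.2 := by omega
    exact_mod_cast this
  have hsumlog : ∑ t : Fin 3, kl s (coord v t) =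
      Real.log ((min v.1 v.2 : ℕ) : ℝ) + Real.log ((max v.1 v.2 : ℕ) : ℝ) + hh v := by
    rw [Fin.sum_univ_three, kn_log hv, kn_log hv, kn_log hv]
    have e2 : Real.log (coord v 2 : ℕ) = hh v := rfl
    have e0 : Real.log (coord v 0 : ℕ) = Real.log (v.1 : ℕ) := rfl
    have e1 : Real.log (coord v 1 : ℕ) = Real.log (v.2 : ℕ) := rfl
    rw [e0, e1, e2]
    rcases le_total v.1 v.2 with h | h
    · rw [min_eq_left h, max_eq_right h]
    · rw [min_eq_right h, max_eq_left h]; ring
  obtain ⟨s2, hs2, hms2⟩ : ∃ s2 : Fin 3, (2 : Fin 3) ≠ s2 ∧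
      Real.log (coord v s2 : ℕ) = Real.log ((max v.1 v.2 : ℕ) : ℝ) := by
    rcases le_total v.1 v.2 with h | h
    · exact ⟨1, by decide, by rw [max_eq_right h]; rfl⟩
    · exact ⟨0, by decide, by rw [max_eq_left h]; rfl⟩
  -- the sum of the masses of a set
  have hdiv : ∀ K : Finset ℕ, ∑ q ∈ K, kn_m v q / hh v = (∑ s : Fin 3, kl K (coord v s)) / hh v := by
    intro K
    rw [← Finset.sum_div, kn_sum]
  have hdivf : ∀ K : Finset ℕ, (∀ q ∈ K, q.Prime) → ∀ t,
      ∑ q ∈ K.filter (fun q => kn_i v q = t), kn_m v q / hh v = kl K (coord v t) / hh v := by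
    intro K hK t
    rw [← Finset.sum_div, kn_fil hv K hK]
  obtain ⟨K, hKs, hKc, hK2⟩ := H s (fun q => Real.log q / Real.log X) (fun q => kn_m v q / hh v)
    (kn_i v) ((hh v - Real.log ((min v.1 v.2 : ℕ) : ℝ)) / hh v) 2 s2 hs2
    (fun q hq => div_pos (hlogq q hq) hLX)
    (fun q hq => by
      unfold kn_m
      have := hlogq q hq
      positivity)
    (div_nonneg (by linarith) hh0.le)
    (by
      rw [← Finset.sum_div, div_le_one hLX]
      have h1 : ∑ q ∈ s, Real.log q = Real.log (RR v : ℕ) := by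
        unfold RR rad
        rw [Nat.cast_prod, Real.log_prod]
        intro q hq
        have := (Nat.prime_of_mem_primeFactors hq).pos
        positivity
      rw [h1]
      have h2 : (0 : ℝ) < (RR v : ℕ) := by
        unfold RR rad
        exact_mod_cast Finset.prod_pos fun q hq => (Nat.prime_of_mem_primeFactors hq).pos
      exact Real.log_le_log h2 hR)
    (by
      rw [hdiv, ← add_div, le_div_iff₀ hh0, hsumlog]
      nlinarith)
    (by
      rw [hdiv, ← add_div, div_le_iff₀ hh0, hsumlog]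
      linarith)
    (by
      rw [hdivf s hprime, le_div_iff₀ hh0, kn_log hv]
      have e2 : Real.log (coord v 2 : ℕ) = hh v := rfl
      rw [e2]
      nlinarith)
    (by
      rw [hdivf s hprime, le_div_iff₀ hh0, kn_log hv, hms2]
      nlinarith)
  refine ⟨K, hKs, ?_, ?_⟩
  · have h1 : ((∏ q ∈ K, q : ℕ) : ℝ) = Real.exp (∑ q ∈ K, Real.log q) := by
      rw [Nat.cast_prod, Real.exp_sum]
      refine Finset.prod_congr rfl fun q hq => ?_
      rw [Real.exp_log]
      exact_mod_cast (hprime q (hKs hq)).pos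
    rw [h1, Real.rpow_def_of_pos hX0]
    refine Real.exp_le_exp.2 ?_
    rw [← Finset.sum_div, div_le_iff₀ hLX] at hKc
    linarith
  · rcases hK2 with h | ⟨h1, t, h2⟩
    · left
      rw [hdiv, ← add_div, le_div_iff₀ hh0] at h
      unfold mass
      exact h
    · right
      refine ⟨fun q hq hqK => ?_, t, ?_⟩
      · have h3 := h1 q hq hqK
        rw [lt_div_iff₀ hLX] at h3
        have hq0 : (0 : ℝ) < q := by exact_mod_cast (hprime q hq).pos
        rw [Real.rpow_def_of_pos hX0, ← Real.exp_log hq0]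
        exact Real.exp_lt_exp.2 (by linarith)
      · rw [hdivf K (fun q hq => hprime q (hKs hq)), le_div_iff₀ hh0] at h2
        exact h2

end Pool.SHA
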