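import Pool.Agent.H45.SHA.Stmts
import Pool.Agent.H81.ABCR.KNA

/-! # SHA, module KNR: the real knapsack -/

set_option autoImplicit false

namespace Pool.SHA

open Finset Pool.Agent.H98.ABCR

private theorem knr_D (S : Finset ℕ) (c μ : ℕ → ℝ) (η m' : ℝ) (hμ : ∀ q ∈ S, 0 ≤ μ q)
    (hc : ∀ q ∈ S, 0 < c q) (hη : 0 ≤ η) (hcη : ∀ q ∈ S, c q ≤ η) (hm' : 0 ≤ m')
    (hm0 : m' ≤ ∑ q ∈ S, μ q) (hpos : 0 < ∑ q ∈ S, μ q) :
    ∃ K ⊆ S, ∑ q ∈ S, μ q - m' ≤ ∑ q ∈ K, μ q ∧
      ∑ q ∈ K, c q ≤ ∑ q ∈ S, c q - (∑ q ∈ S, c q) / (∑ q ∈ S, μ q) * m' + η := by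
  have h1 : m' / ∑ q ∈ S, μ q ≤ 1 := by
    rw [div_le_one hpos]; exact hm0
  have h2 : 0 ≤ m' / ∑ q ∈ S, μ q := by positivity
  obtain ⟨K, hK, h3, h4⟩ := kna_thm S μ c (1 - m' / ∑ q ∈ S, μ q) η hμ hc (by linarith)
    (by linarith) hη hcη
  refine ⟨K, hK, ?_, ?_⟩
  · have : (1 - m' / ∑ q ∈ S, μ q) * ∑ q ∈ S, μ q = ∑ q ∈ S, μ q - m' := by
      field_simp
    linarith
  · refine h4.trans (le_of_eq ?_)
    field_simp

theorem knr_thm : S_KNR := by
  intro ε hε hε1
  refine ⟨ε / 100, ε / 10, by positivity, by linarith, by positivity, by linarith, ?_⟩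
  intro s c μ i ν s1 s2 hs12 hc hμ hν hcost hM1 hM2 hS1 hS2
  set δ := ε / 100 with hδ
  set η := ε / 10 with hη
  set S := s.filter (fun q => c q ≤ η) with hS
  set P := s.filter (fun q => ¬ c q ≤ η) with hP
  have hSs : S ⊆ s := Finset.filter_subset _ _
  have hPs : P ⊆ s := Finset.filter_subset _ _
  have hdis : Disjoint P S := by
    rw [hS, hP]; exact (Finset.disjoint_filter_filter_not s s (fun q => c q ≤ η)).symm
  have ec : ∑ q ∈ S, c q + ∑ q ∈ P, c q = ∑ q ∈ s, c q := Finset.sum_filter_add_sum_filter_not _ _ _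
  have em : ∑ q ∈ S, μ q + ∑ q ∈ P, μ q = ∑ q ∈ s, μ q := Finset.sum_filter_add_sum_filter_not _ _ _
  have hμS : ∀ q ∈ S, 0 ≤ μ q := fun q hq => hμ q (hSs hq)
  have hcS : ∀ q ∈ S, 0 < c q := fun q hq => hc q (hSs hq)
  have hμP : ∀ q ∈ P, 0 ≤ μ q := fun q hq => hμ q (hPs hq)
  have hcP : ∀ q ∈ P, 0 < c q := fun q hq => hc q (hPs hq)
  have hcSη : ∀ q ∈ S, c q ≤ η := fun q hq => (Finset.mem_filter.1 hq).2
  have hcPη : ∀ q ∈ P, η < c q := fun q hq => not_le.1 (Finset.mem_filter.1 hq).2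
  have hη0 : 0 ≤ η := by positivity
  have hδ0 : 0 < δ := by positivity
  have hmS0 : 0 ≤ ∑ q ∈ S, μ q := Finset.sum_nonneg hμS
  have hmP0 : 0 ≤ ∑ q ∈ P, μ q := Finset.sum_nonneg hμP
  have hcS0 : 0 ≤ ∑ q ∈ S, c q := Finset.sum_nonneg fun q hq => (hcS q hq).le
  have hcP0 : 0 ≤ ∑ q ∈ P, c q := Finset.sum_nonneg fun q hq => (hcP q hq).le
  have hout : ∀ K : Finset ℕ, S ⊆ K → ∀ q ∈ s, q ∉ K → η < c q := by
    intro K hSK q hq hqK
    by_contra hcon
    exact hqK (hSK (Finset.mem_filter.2 ⟨hq, not_lt.1 hcon⟩))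
  by_cases hI : ∃ t, δ ≤ ∑ q ∈ S.filter (fun q => i q = t), μ q
  · -- Case I
    by_cases hm : ∑ q ∈ S, μ q < 1 - 2 * δ
    · by_cases hcp : ∑ q ∈ P, c q ≤ 1 / 2
      · exact ⟨P, hPs, by linarith, Or.inl (by linarith)⟩
      · refine ⟨S, hSs, by linarith [not_le.1 hcp], Or.inr ⟨hout S (Finset.Subset.refl _), hI⟩⟩
    · push Not at hm
      have hm0 : 0 < ∑ q ∈ S, μ q := by linarith
      have hr0 : 0 ≤ (∑ q ∈ S, c q) / (∑ q ∈ S, μ q) := by positivity
      have hrm : (∑ q ∈ S, c q) / (∑ q ∈ S, μ q) * (∑ q ∈ S, μ q) = ∑ q ∈ S, c q := by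
        field_simp
      by_cases hr : 1 / 3 ≤ (∑ q ∈ S, c q) / (∑ q ∈ S, μ q)
      · obtain ⟨K, hK, h1, h2⟩ := knr_D S c μ η (1 - 2 * δ) hμS hcS hη0 hcSη (by linarith) hm hm0
        have hd : Disjoint P K := Finset.disjoint_of_subset_right hK hdis
        refine ⟨P ∪ K, Finset.union_subset hPs (hK.trans hSs), ?_, Or.inl ?_⟩
        · rw [Finset.sum_union hd]
          have := mul_le_mul_of_nonneg_right hr (show 0 ≤ 1 - 2 * δ by linarith)
          linarith
        · rw [Finset.sum_union hd]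
          linarith
      · push Not at hr
        by_cases hp : ∑ q ∈ P, μ q < 1 - 2 * δ
        · obtain ⟨K, hK, h1, h2⟩ := knr_D S c μ η (1 - 2 * δ - ∑ q ∈ P, μ q) hμS hcS hη0 hcSη
            (by linarith) (by linarith) hm0
          refine ⟨K, hK.trans hSs, ?_, Or.inl (by linarith)⟩
          have h3 : (∑ q ∈ S, c q) / (∑ q ∈ S, μ q) *
              (∑ q ∈ S, μ q - (1 - 2 * δ - ∑ q ∈ P, μ q)) ≤
              1 / 3 * (∑ q ∈ S, μ q - (1 - 2 * δ - ∑ q ∈ P, μ q)) :=
            mul_le_mul_of_nonneg_right hr.le (by linarith)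
          rw [mul_sub, hrm] at h3
          linarith
        · push Not at hp
          refine ⟨S, hSs, ?_, Or.inr ⟨hout S (Finset.Subset.refl _), hI⟩⟩
          have h3 := mul_le_mul_of_nonneg_right hr.le hmS0
          rw [hrm] at h3
          linarith
  · -- Case II
    push Not at hI
    have hmS : ∑ q ∈ S, μ q ≤ 3 * δ := by
      have h1 : ∑ q ∈ S, μ q = ∑ t : Fin 3, ∑ q ∈ S.filter (fun q => i q = t), μ q :=
        (Finset.sum_fiberwise S i μ).symm
      rw [h1, Fin.sum_univ_three]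
      linarith [hI 0, hI 1, hI 2]
    by_cases hcp : ∑ q ∈ P, c q ≤ 2 / 3
    · exact ⟨P, hPs, by linarith, Or.inl (by linarith)⟩
    push Not at hcp
    have hcard : (P.card : ℝ) * η ≤ 1 := by
      have : ∑ _q ∈ P, η ≤ ∑ q ∈ P, c q := Finset.sum_le_sum fun q hq => (hcPη q hq).le
      rw [Finset.sum_const, nsmul_eq_mul] at this
      linarith
    have hex : ∀ t : Fin 3, 1 - δ ≤ ∑ q ∈ s.filter (fun q => i q = t), μ q →
        ∃ q ∈ P, i q = t ∧ δ ≤ μ q := by
      intro t ht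
      by_contra hcon
      push Not at hcon
      have h1 : ∑ q ∈ s.filter (fun q => i q = t), μ q =
          ∑ q ∈ S.filter (fun q => i q = t), μ q + ∑ q ∈ P.filter (fun q => i q = t), μ q := by
        rw [Finset.sum_filter (s := s), Finset.sum_filter (s := S), Finset.sum_filter (s := P)]
        exact (Finset.sum_filter_add_sum_filter_not s (fun q => c q ≤ η)
          (fun q => if i q = t then μ q else 0)).symm
      have h2 : ∑ q ∈ P.filter (fun q => i q = t), μ q ≤ ∑ _q ∈ P.filter (fun q => i q = t), δ := by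
        refine Finset.sum_le_sum fun q hq => ?_
        rw [Finset.mem_filter] at hq
        exact (hcon q hq.1 hq.2).le
      rw [Finset.sum_const, nsmul_eq_mul] at h2
      have h3 : ((P.filter (fun q => i q = t)).card : ℝ) ≤ P.card := by
        exact_mod_cast Finset.card_filter_le _ _
      have h4 : (P.card : ℝ) * δ ≤ 1 / 10 := by
        have : δ = η * (1 / 10) := by rw [hδ, hη]; ring
        rw [this]; nlinarith
      have h5 := hI t
      have h6 : ((P.filter (fun q => i q = t)).card : ℝ) * δ ≤ P.card * δ :=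
        mul_le_mul_of_nonneg_right h3 hδ0.le
      linarith
    obtain ⟨q1, hq1, hi1, hm1⟩ := hex s1 hS1
    obtain ⟨q2, hq2, hi2, hm2⟩ := hex s2 hS2
    have hne : q1 ≠ q2 := by
      rintro rfl
      exact hs12 (hi1.symm.trans hi2)
    have hsum2 : c q1 + c q2 ≤ ∑ q ∈ P, c q := by
      have h1 : ∑ q ∈ ({q1, q2} : Finset ℕ), c q ≤ ∑ q ∈ P, c q := by
        refine Finset.sum_le_sum_of_subset_of_nonneg ?_ fun q hq _ => (hcP q hq).le
        intro q hq
        rw [Finset.mem_insert, Finset.mem_singleton] at hq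
        rcases hq with rfl | rfl <;> assumption
      rwa [Finset.sum_pair hne] at h1
    obtain ⟨q, hq, hcq, hmq⟩ : ∃ q ∈ P, c q ≤ (∑ q ∈ P, c q) / 2 ∧ δ ≤ μ q := by
      rcases le_total (c q1) (c q2) with h | h
      · exact ⟨q1, hq1, by linarith, hm1⟩
      · exact ⟨q2, hq2, by linarith, hm2⟩
    have hqS : q ∉ S := fun h => Finset.disjoint_left.1 hdis hq h
    refine ⟨insert q S, Finset.insert_subset (hPs hq) hSs, ?_, Or.inr
      ⟨hout _ (Finset.subset_insert _ _), i q, ?_⟩⟩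
    · rw [Finset.sum_insert hqS]
      linarith
    · refine hmq.trans ?_
      refine Finset.single_le_sum (f := μ) (s := (insert q S).filter (fun x => i x = i q)) ?_ ?_
      · intro x hx
        rw [Finset.mem_filter, Finset.mem_insert] at hx
        rcases hx.1 with rfl | h
        · exact hμP _ hq
        · exact hμS _ h
      · rw [Finset.mem_filter]
        exact ⟨Finset.mem_insert_self _ _, rfl⟩

end Pool.SHA
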